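import Pool.Agent.NG5c.Cover
import Pool.Agent.NG5c.Cubes

/-!
# The cubes cover all patterns (generated)
-/

set_option autoImplicit false

namespace Pool.Agent.NG5c

theorem covers : Covers cubes := covers_of_check_one cubes (by decide +kernel)

end Pool.Agent.NG5c
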